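import Mathlib
import Pool.Agent.OrdRank.Final

set_option autoImplicit false

open OrdRank

universe u

namespace Pool.Agent.Results.MP_25be31_al.IffSoluble

/-- For a group `G` with a bi-invariant total order and special rank at most `r` the following are
equivalent: every convex subgroup of `G` is the isolator of a finitely generated subgroup; fewer than
continuum many convex subgroups of `G` are not isolators of finitely generated subgroups; `G` is
soluble. -/
theorem result (G : Type u) [Group G] [LinearOrder G] [MulLeftMono G] [MulRightMono G] (r : ℕ)
    (hr : SpecialRankLE G r) : List.TFAE [
      ∀ C : Subgroup G, IsConvex C → ∃ H : Subgroup G, H.FG ∧ C = isolator H,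
      Cardinal.mk {C : Subgroup G // IsConvex C ∧
        ¬ ∃ H : Subgroup G, H.FG ∧ C = isolator H} < Cardinal.continuum,
      Group.IsSolvable G] :=
  tfae_isolator hr

end Pool.Agent.Results.MP_25be31_al.IffSoluble
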